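import Pool.Agent.T9h61.QA.Main
import Pool.Agent.R413.MQ.Bin
import Pool.Agent.Results.MP_03e5d0_nt.FullClassX49

/-!
# A partial algorithm for the curves `d y² = e x³ + a x² + b x + c`, and the quadratic twists of `X_0(49)`

We construct one partial computable function `φ` on the polynomials `f(x, y)` with integer coefficients
(lists of coefficient lists) with the following properties.

* Whenever `φ(f)` is defined, it is the correct answer to the question whether `f(x, y) = 0` has
  infinitely many rational solutions.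
* It is defined (with the value `true`) at EVERY polynomial `d y² - (e x³ + a x² + b x + c)`, `e ≠ 0`, that
  has infinitely many rational zeros; every elliptic curve over `ℚ` has an equation of this form.
* The set of the `f` with `φ(f) = false` is decidable.
* Let `D` be squarefree with all prime factors `1` modulo `4`, `m ≠ 0`. The polynomial
  `D m² y² - (x³ - 35 x - 98)` defines the quadratic twist `E_D` of `X_0(49)`, and `φ` has the value
  `false` at it if and only if `E_D(ℚ)` is finite and `Ш(E_D/ℚ)[2] = 0`.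
* The proportion of these `D` is exactly `c = ∏_{i ≥ 0} (1 - 2^{-(2i+1)}) = 0.4194…`. More generally, for
  every finite set `T` of numbers `M` of the class, the events that `φ` is false at the twist by `M D` are
  independent in the limit: for `V ⊆ T` the proportion of the `D` such that `V` is the set of the `M` with
  this property is `c ^ |V| (1 - c) ^ |T \ V|`. Hence, if `T` is large, then for nearly all `D` of the
  class the proportion of the `M ∈ T` with this property is nearly `c`.

The first search looks for a rational point whose height is larger than an explicit bound, in terms of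
the coefficients; the duplication formula and an explicit resultant identity show that the heights of
`P`, `2 P`, `4 P`, … are then strictly increasing. The second search looks for a factorization of `D`
which is subject to conditions on quadratic and quartic residues (a kernel vector of the matrix of the
2-descent). The arithmetic of the twists of `X_0(49)` is due to helper428 (`MP_4a9ea6_nt/TwoPartTwistsX49`),
the counting and the law of large numbers to helper413 (`MP_03e5d0_nt/FullClassX49`, `R413/MQ/Bin`); the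
construction of a partial algorithm from two searches follows helper395 (`MP_d6ddbd_nt/CubicTwists`). The
law of large numbers in this file was added by helper77, who also found a weaker form of the theorem
independently.
-/

set_option autoImplicit false

open Filter Topology
open scoped Classical

namespace Pool.Agent.Results.MP_d6ddbd_nt.QuadraticTwistsX49

/-- the set `Z_f(ℚ)` of the rational zeros of `f = ∑ L_(i,j) x^i y^j` -/
def Zeros (L : List (List ℤ)) : Set (ℚ × ℚ) := {p : ℚ × ℚ |
  ∑ i ∈ Finset.range L.length, ∑ j ∈ Finset.range (L.getD i []).length,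
    (((L.getD i []).getD j 0 : ℤ) : ℚ) * p.1 ^ i * p.2 ^ j = 0}

/-- the polynomial `d y² - (e x³ + a x² + b x + c)` -/
def curve (d e a b c : ℤ) : List (List ℤ) := [[-c, 0, d], [-b], [-a], [-e]]

/-- the polynomial `n y² - (x³ - 35 x - 98)`: the quadratic twist by `n` of
`X_0(49) : y² = x³ - 35 x - 98` -/
def twist (n : ℤ) : List (List ℤ) := curve n 1 0 (-35) (-98)

/-- the class: `D` is squarefree and all its prime factors are `≡ 1 mod 4` -/
def Family (D : ℕ) : Prop := Squarefree D ∧ ∀ p ∈ D.primeFactors, p % 4 = 1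

/-- `E_D : y² = x³ - 35 D² x - 98 D³`, isomorphic to `D y² = x³ - 35 x - 98` -/
def E (D : ℕ) : WeierstrassCurve ℚ :=
  { a₁ := 0, a₂ := 0, a₃ := 0, a₄ := -35 * (D : ℚ) ^ 2, a₆ := -98 * (D : ℚ) ^ 3 }

/-- `E_D(ℚ)` is finite and `Ш(E_D/ℚ)` has no element of order two -/
def RankZeroShaTwo (D : ℕ) : Prop :=
  Finite (E D).toAffine.Point ∧ ∀ x : Pool.Agent.TH841.NF.D.Sha (E D), 2 • x = 0 → x = 0

/-- the number of the `D ≤ X` of the class with the property `Q` -/
noncomputable def num (Q : ℕ → Prop) (X : ℕ) : ℕ :=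
  ((Finset.Icc 1 X).filter fun D => Family D ∧ Q D).card

/-- the number of the `M ∈ T` such that `φ` has the value `false` at `M D y² - (x³ - 35 x - 98)` -/
noncomputable def negative (φ : List (List ℤ) →. Bool) (T : Finset ℕ) (D : ℕ) : ℕ :=
  (T.filter fun M : ℕ => false ∈ φ (twist (M * D))).card

/-- the constant `0.4194...` -/
noncomputable def c : ℝ := ∏' i : ℕ, (1 - (1 / 2 : ℝ) ^ (2 * i + 1))

section proof

open Pool.Agent.Results.MP_4a9ea6_nt.TwoPartTwistsX49 (mat)
open Pool.Agent.R413.SQ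
open Pool.Agent.R413.MQ.Bin (cnt cnt_card N lln cnt_union)

theorem E_eq (D : ℕ) : Cor.ES D = E D := by
  unfold Cor.ES Cor.a Cor.b E
  push_cast
  rfl

theorem mat_eq (D : ℕ) : mat D = Pool.Agent.T9h61.QA.mat D := rfl

theorem two_not {D : ℕ} (h : Family D) : ¬ 2 ∣ D := by
  intro hd
  have h1 := h.2 2 (Nat.mem_primeFactors.2 ⟨Nat.prime_two, hd, h.1.ne_zero⟩)
  omega

theorem rank_iff {D : ℕ} (h : Family D) : RankZeroShaTwo D ↔ (mat D).det ≠ 0 := by
  have h1 := Cor.crit (D := D) h
  rw [E_eq] at h1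
  exact h1

theorem rank_bad (D : ℕ) (h : Pool.Agent.T9h61.QA.Adm D) :
    RankZeroShaTwo D ↔ ¬ Pool.Agent.T9h61.QA.Bad D := by
  rw [rank_iff h, mat_eq, ← Pool.Agent.T9h61.QA.det_iff h.1 (two_not h)]
  exact Iff.rfl

theorem sol_fin (D : ℕ) (h : Pool.Agent.T9h61.QA.Adm D) (hr : RankZeroShaTwo D) :
    (Pool.Agent.T9h61.QA.Sol D 1 0 (-35) (-98)).Finite := by
  have hD : D ≠ 0 := h.1.ne_zero
  have hDq : (D : ℚ) ≠ 0 := by exact_mod_cast hD
  have h1 := hr.1
  rw [← E_eq] at h1
  have h2 := Cor.fin_set hD h1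
  refine Set.Finite.of_finite_image (f := fun p : ℚ × ℚ => ((D : ℚ) * p.1, (D : ℚ) ^ 2 * p.2)) ?_ ?_
  · refine h2.subset ?_
    rintro _ ⟨⟨x, y⟩, h5, rfl⟩
    have h5 : ((D : ℤ) : ℚ) * y ^ 2 = ((1 : ℤ) : ℚ) * x ^ 3 + ((0 : ℤ) : ℚ) * x ^ 2 +
        ((-35 : ℤ) : ℚ) * x + ((-98 : ℤ) : ℚ) := h5
    show ((D : ℚ) ^ 2 * y) ^ 2 = ((D : ℚ) * x) ^ 3 + (Cor.a D : ℚ) * ((D : ℚ) * x) + (Cor.b D : ℚ)
    unfold Cor.a Cor.b
    push_cast at h5 ⊢
    linear_combination (D : ℚ) ^ 3 * h5
  · rintro ⟨x, y⟩ - ⟨x', y'⟩ - h5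
    simp only [Prod.mk.injEq] at h5
    exact Prod.ext (mul_left_cancel₀ hDq h5.1) (mul_left_cancel₀ (pow_ne_zero 2 hDq) h5.2)

theorem num_eq {Q R : ℕ → Prop} (h : ∀ D, Family D → (Q D ↔ R D)) (X : ℕ) :
    num Q X = Joint.num R X := by
  unfold num Joint.num
  refine congrArg Finset.card (Finset.ext fun D => ?_)
  rw [Finset.mem_filter, Finset.mem_filter]
  refine and_congr_right fun _ => ?_
  exact and_congr_right fun hD => h D hD

theorem num_cnt (Q : ℕ → Prop) (X : ℕ) : num Q X = cnt Family Q X := by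
  unfold num
  symm
  exact cnt_card fun D => by rw [Finset.mem_filter]

theorem neg_N (φ : List (List ℤ) →. Bool) (T : Finset ℕ) (D : ℕ) :
    N T (fun (M : ℕ) (D : ℕ) => false ∈ φ (twist (M * D))) D = negative φ T D := by
  unfold N negative
  refine congrArg Finset.card (Finset.ext fun M => ?_)
  rw [Finset.mem_filter]

/-- the law of large numbers (helper77) -/
theorem large {φ : List (List ℤ) →. Bool} (hc0 : 0 ≤ c) (hc1 : c ≤ 1)
    (h : ∀ T V : Finset ℕ, (∀ M ∈ T, Family M) → V ⊆ T → Tendsto (fun X : ℕ =>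
      (num (fun D => ∀ M ∈ T, (false ∈ φ (twist (M * D)) ↔ M ∈ V)) X : ℝ) /
        (num (fun _ => True) X : ℝ)) atTop (𝓝 (c ^ V.card * (1 - c) ^ (T.card - V.card))))
    (ε : ℝ) (hε : 0 < ε) : ∃ n₀ : ℕ, ∀ T : Finset ℕ, (∀ M ∈ T, Family M) → n₀ ≤ T.card →
      ∃ X₀ : ℕ, ∀ X : ℕ, X₀ ≤ X → (1 - ε) * (num (fun _ => True) X : ℝ) ≤
        (num (fun D => |(negative φ T D : ℝ) / T.card - c| < ε) X : ℝ) := by
  obtain ⟨n₀, hn₀⟩ := exists_nat_gt (2 * (c * (1 - c)) / (ε ^ 3))
  refine ⟨n₀ + 1, fun T hT hn => ?_⟩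
  have hTc : 0 < T.card := by omega
  have hne : T.Nonempty := Finset.card_pos.1 hTc
  have hTr : (0 : ℝ) < (T.card : ℝ) := by exact_mod_cast hTc
  have h3n : (n₀ : ℝ) < (T.card : ℝ) := by exact_mod_cast (by omega : n₀ < T.card)
  obtain ⟨X₀, h⟩ := lln (Fam := Family) (T := T) (c := c)
    (G := fun (M : ℕ) (D : ℕ) => false ∈ φ (twist (M * D))) hne hc0 hc1
    (fun V hV => by
      have h1 := h T V hT hV
      simp only [num_cnt] at h1
      exact h1) hε (show 0 < ε / 2 by linarith)
  refine ⟨X₀, fun X hX => ?_⟩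
  have h1 := h X hX
  have h2 : c * (1 - c) / (ε ^ 2 * (T.card : ℝ)) ≤ ε / 2 := by
    have h3 := hn₀.trans h3n
    rw [div_lt_iff₀ (by positivity)] at h3
    rw [div_le_iff₀ (by positivity)]
    nlinarith
  have hA : (0 : ℝ) ≤ (cnt Family (fun _ => True) X : ℝ) := Nat.cast_nonneg _
  have h4 := h1.trans (mul_le_mul_of_nonneg_right
    (b := c * (1 - c) / (ε ^ 2 * (T.card : ℝ)) + ε / 2) (c := ε) (by linarith) hA)
  have h5 := cnt_union (Fam := Family)
    (Q := fun D => ε ≤ |(N T (fun (M : ℕ) (D : ℕ) => false ∈ φ (twist (M * D))) D : ℝ) /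
      (T.card : ℝ) - c|)
    (R := fun D => |(negative φ T D : ℝ) / T.card - c| < ε) (fun D _ => by
      by_cases h6 : ε ≤ |(N T (fun (M : ℕ) (D : ℕ) => false ∈ φ (twist (M * D))) D : ℝ) /
        (T.card : ℝ) - c|
      · exact Or.inl h6
      · right
        rw [← neg_N]
        exact not_le.1 h6) X
  have h6 : (cnt Family (fun _ => True) X : ℝ) ≤
      (cnt Family (fun D => ε ≤ |(N T (fun (M : ℕ) (D : ℕ) => false ∈ φ (twist (M * D))) D : ℝ) /
        (T.card : ℝ) - c|) X : ℝ) +
      (cnt Family (fun D => |(negative φ T D : ℝ) / T.card - c| < ε) X : ℝ) := by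
    exact_mod_cast h5
  rw [num_cnt, num_cnt]
  linarith

end proof

/-- **Theorem.** There is a partial computable function `φ` from the lists of lists of integers
(polynomials `f(x, y)`) to `{true, false}` such that
(1) if `φ(f)` is defined, then it is `true` if and only if `f` has infinitely many rational zeros;
(2) for all integers `d, e, a, b, c` with `e ≠ 0`: if `d y² - (e x³ + a x² + b x + c)` has infinitely many
rational zeros, then `φ` is defined at this polynomial (with the value `true`, by (1));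
(3) it is decidable whether `φ(f) = false`;
(4) for all `D` of the class and all integers `m ≠ 0`: `φ` has the value `false` at
`D m² y² - (x³ - 35 x - 98)` if and only if `E_D(ℚ)` is finite and `Ш(E_D/ℚ)[2] = 0`;
(5) hence `φ` is defined at this polynomial if and only if this is true or `E_D` has infinitely many
rational points;
(6) for all finite subsets `T` of the class and `V ⊆ T` the proportion of the `D` in the class such that
`V` is the set of the `M ∈ T` for which `φ` has the value `false` at `M D y² - (x³ - 35 x - 98)`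
tends exactly to `c ^ |V| (1 - c) ^ (|T| - |V|)`, and there are at least `a X / √(log X)` such `D ≤ X`,
`a > 0`; in particular (`T = V = {1}`) `φ` has the value `false` at `D y² - (x³ - 35 x - 98)` for exactly
the proportion `c` of the `D`;
(7) for every `ε > 0` and every sufficiently large finite subset `T` of the class, the proportion of the
`M ∈ T` with the value `false` at `M D y² - (x³ - 35 x - 98)` is within `ε` of `c` for all but a
proportion `ε` of the `D` in the class;
(8) `0.4194 < c < 0.4195`. -/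
theorem result :
    ∃ φ : List (List ℤ) →. Bool, Partrec φ ∧
    (∀ L, ∀ r ∈ φ L, (r = true ↔ (Zeros L).Infinite)) ∧
    (∀ d e a b c : ℤ, e ≠ 0 → (Zeros (curve d e a b c)).Infinite → (φ (curve d e a b c)).Dom) ∧
    ComputablePred (fun L => false ∈ φ L) ∧
    (∀ (D : ℕ) (m : ℤ), Family D → m ≠ 0 → (false ∈ φ (twist (D * m ^ 2)) ↔ RankZeroShaTwo D)) ∧
    (∀ (D : ℕ) (m : ℤ), Family D → m ≠ 0 →
      ((φ (twist (D * m ^ 2))).Dom ↔ RankZeroShaTwo D ∨ (Zeros (twist (D * m ^ 2))).Infinite)) ∧
    (∀ T V : Finset ℕ, (∀ M ∈ T, Family M) → V ⊆ T →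
      Tendsto (fun X : ℕ =>
          (num (fun D => ∀ M ∈ T, (false ∈ φ (twist (M * D)) ↔ M ∈ V)) X : ℝ) /
          (num (fun _ => True) X : ℝ)) atTop (𝓝 (c ^ V.card * (1 - c) ^ (T.card - V.card))) ∧
      ∃ (a : ℝ) (X₀ : ℕ), 0 < a ∧ ∀ X : ℕ, X₀ ≤ X → a * X / Real.sqrt (Real.log X) ≤
        (num (fun D => ∀ M ∈ T, (false ∈ φ (twist (M * D)) ↔ M ∈ V)) X : ℝ)) ∧
    (∀ ε : ℝ, 0 < ε → ∃ n₀ : ℕ, ∀ T : Finset ℕ, (∀ M ∈ T, Family M) → n₀ ≤ T.card →
      ∃ X₀ : ℕ, ∀ X : ℕ, X₀ ≤ X → (1 - ε) * (num (fun _ => True) X : ℝ) ≤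
        (num (fun D => |(negative φ T D : ℝ) / T.card - c| < ε) X : ℝ)) ∧
    0.4194 < c ∧ c < 0.4195 := by
  have hcc : Pool.Agent.Y703.CQ.c2 = c := rfl
  have hc1 : 0.4194 < c := Pool.Agent.Y948.CQ.t_C2.2.2.2.1
  have hc2 : c < 0.4195 := Pool.Agent.Y948.CQ.t_C2.2.2.2.2
  obtain ⟨φ, h1, h2, h3, h4, h5⟩ := Pool.Agent.T9h61.QA.main RankZeroShaTwo rank_bad sol_fin
  have h5' : ∀ (D : ℕ) (m : ℤ), Family D → m ≠ 0 →
      (false ∈ φ (twist (D * m ^ 2)) ↔ RankZeroShaTwo D) := h5
  suffices hlaw : ∀ T V : Finset ℕ, (∀ M ∈ T, Family M) → V ⊆ T →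
      Tendsto (fun X : ℕ =>
          (num (fun D => ∀ M ∈ T, (false ∈ φ (twist (M * D)) ↔ M ∈ V)) X : ℝ) /
          (num (fun _ => True) X : ℝ)) atTop (𝓝 (c ^ V.card * (1 - c) ^ (T.card - V.card))) ∧
      ∃ (a : ℝ) (X₀ : ℕ), 0 < a ∧ ∀ X : ℕ, X₀ ≤ X → a * X / Real.sqrt (Real.log X) ≤
        (num (fun D => ∀ M ∈ T, (false ∈ φ (twist (M * D)) ↔ M ∈ V)) X : ℝ) by
    refine ⟨φ, h1, h2, h3, h4, h5', ?_, hlaw, ?_, hc1, hc2⟩
    · intro D m hD hm
      constructor
      · intro h
        obtain ⟨r, hr⟩ := Part.dom_iff_mem.1 h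
        cases r with
        | true => exact Or.inr ((h2 _ _ hr).1 rfl)
        | false => exact Or.inl ((h5' D m hD hm).1 hr)
      · rintro (h | h)
        · exact Part.dom_iff_mem.2 ⟨false, (h5' D m hD hm).2 h⟩
        · exact h3 _ _ _ _ _ one_ne_zero h
    · exact large (by linarith) (by linarith) fun T V hT hV => (hlaw T V hT hV).1
  · intro T V hT hV
    have h := Pool.Agent.R413.SQ.Joint.law hT hV
    rw [hcc, Finset.card_sdiff_of_subset hV] at h
    have key : ∀ D, Family D → ((∀ M ∈ T, (false ∈ φ (twist (M * D)) ↔ M ∈ V)) ↔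
        ∀ M ∈ T, ((Pool.Agent.Results.MP_4a9ea6_nt.TwoPartTwistsX49.mat
          (Pool.Agent.R413.SQ.Joint.tw M D)).det ≠ 0 ↔ M ∈ V)) := by
      intro D hD
      refine forall₂_congr fun M hM => ?_
      have hMD := Pool.Agent.R413.SQ.Joint.ac_tw (hT M hM) hD
      have hA : Family (Pool.Agent.R413.SQ.Joint.tw M D) :=
        Pool.Agent.R413.SQ.Joint.adm_tw (hT M hM) hD
      have hg : ((Nat.gcd M D : ℕ) : ℤ) ≠ 0 := by
        have : Nat.gcd M D ≠ 0 := Nat.gcd_ne_zero_right hD.1.ne_zero
        exact_mod_cast this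
      have e : (M : ℤ) * (D : ℤ) = (Pool.Agent.R413.SQ.Joint.tw M D : ℤ) *
          ((Nat.gcd M D : ℕ) : ℤ) ^ 2 := by exact_mod_cast hMD.2
      rw [e, h5' _ _ hA hg, rank_iff hA]
    have e1 := fun X => num_eq key X
    have e2 := fun X => num_eq (Q := fun _ => True) (R := fun _ => True) (fun _ _ => Iff.rfl) X
    refine ⟨?_, ?_⟩
    · simp only [e1, e2]
      exact h
    · have h6 : 0 < c ^ V.card * (1 - c) ^ (T.card - V.card) := by
        have k1 : 0 < c := by linarith
        have k2 : 0 < 1 - c := by linarith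
        positivity
      simp only [e1]
      exact Pool.Agent.R413.SQ.Joint.low_of h6 h

end Pool.Agent.Results.MP_d6ddbd_nt.QuadraticTwistsX49
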